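import Pool.Agent.Lib.MP_e2af18_al.Rank

namespace Pool.Agent.Results.MP_e2af18_al.NotComputable

open PalNil

/-- Negative answer to Q1: there is `n₀ ≥ 2` such that for every `n ≥ n₀` the function which
sends a word in the letters `x_1^{±1}, …, x_n^{±1}` to the palindromic length of the element it
represents in the free `4`-step nilpotent group `N_{n,4}` is not computable. -/
theorem result : ∃ n₀ : ℕ, 2 ≤ n₀ ∧ ∀ n ≥ n₀,
    ¬ Computable fun w : List (Fin n × Bool) => palLength n 4 (wordElem n 4 w) :=
  not_computable_of_large

end Pool.Agent.Results.MP_e2af18_al.NotComputable
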